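import Mathlib

/-!
Numerically exceptional systems of maximal size in the Grothendieck group of the Fano threefold
`P^1 x P^2`, and the equivalence generated by mutations, shifts and isometries.
-/

namespace Pool.Agent.BraidOrbits

open Finset

/-- The Grothendieck group of `X = P^1 x P^2`: the free abelian group on the classes of the six
line bundles `O(a,b)` with `a = 0, 1` and `b = 0, 1, 2` (a full exceptional system of `D^b(X)`). -/
abbrev K0 : Type := Fin 2 × Fin 3 → ℤ

/-- The Euler characteristic of the line bundle `O(m,n)` on `P^1 x P^2`: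
`(m + 1) (n + 1) (n + 2) / 2`. -/
def chiLine (m n : ℤ) : ℤ := (m + 1) * ((n + 1) * (n + 2) / 2)

/-- The Euler form `chi(x,y) = sum_i (-1)^i dim Ext^i(x,y)` on `K_0(X)`, given on the basis by
`chi(O(a,b), O(c,d)) = chi(X, O(c-a, d-b))`. -/
def chi (x y : K0) : ℤ :=
  ∑ p : Fin 2 × Fin 3, ∑ q : Fin 2 × Fin 3,
    x p * y q * chiLine ((q.1 : ℤ) - (p.1 : ℤ)) ((q.2 : ℤ) - (p.2 : ℤ))

/-- A numerically exceptional system of maximal size: six classes `E_0, ..., E_5` with
`chi(E_i, E_i) = 1`, with `chi(E_j, E_i) = 0` for `i < j`, and generating `K_0(X)`. -/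
def IsExceptional (E : Fin 6 → K0) : Prop :=
  (∀ i, chi (E i) (E i) = 1) ∧ (∀ i j, i < j → chi (E j) (E i) = 0) ∧
    Submodule.span ℤ (Set.range E) = ⊤

/-- The type of numerically exceptional systems of maximal size. -/
abbrev System : Type := {E : Fin 6 → K0 // IsExceptional E}

/-- The effect on classes of the `i`-th standard generator of the braid group: the pair
`(E, F)` in the positions `i`, `i+1` is replaced by `(F^+, E)`, where the triangle
`F^+ -> ⊕ Hom(E[p],F) ⊗ E[p] -> F -> F^+[1]` gives `[F^+] = chi(E,F) [E] - [F]`. -/
def mutate (i : Fin 5) (E : Fin 6 → K0) : Fin 6 → K0 := fun j =>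
  if j = i.castSucc then chi (E i.castSucc) (E i.succ) • E i.castSucc - E i.succ
  else if j = i.succ then E i.castSucc else E j

/-- An isometry of the lattice `(K_0(X), chi)`. -/
def IsIsometry (f : K0 ≃+ K0) : Prop := ∀ x y, chi (f x) (f y) = chi x y

/-- One step between numerically exceptional systems: a mutation (a standard generator of the
braid group), the shift of one member (which changes the sign of its class), or an isometry of
the whole lattice applied to all members. -/
def Step (E F : System) : Prop :=
  (∃ i : Fin 5, F.1 = mutate i E.1) ∨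
  (∃ i : Fin 6, F.1 = Function.update E.1 i (-(E.1 i))) ∨
  (∃ f : K0 ≃+ K0, IsIsometry f ∧ F.1 = fun i => f (E.1 i))

/-- The set of orbits: numerically exceptional systems modulo the equivalence relation generated
by mutations, shifts and isometries. -/
abbrev Orbits : Type := Quot Step

end Pool.Agent.BraidOrbits
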