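import Pool.Agent.BraidOrbits.Mg_MP_bd3808_ag.G002

namespace Pool.Agent.BraidOrbits

open Matrix MatrixGroups ModularGroup

/-- the invariant of a system -/
noncomputable def areaInv (E : Fin 6 → K0) : ℤ := inv (fun i => Phi (nuSL (E i)))

lemma ok_Phi {x : K0} (h : chi x x = 1) : Ok (Phi (nuSL x)) := by
  apply lin_Phi_sym
  rw [nuSL_coe h]
  exact nu_mod x

lemma area_mutate {E F : Fin 6 → K0} (hE : IsExceptional E) (hF : IsExceptional F) (i : Fin 5)
    (h : F = mutate i E) : areaInv F = areaInv E := by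
  unfold areaInv
  have key : (fun j => Phi (nuSL (F j))) = hurw i (fun j => Phi (nuSL (E j))) := by
    funext j
    have hFi : F i.castSucc = chi (E i.castSucc) (E i.succ) • E i.castSucc - E i.succ := by
      rw [h]; simp [mutate]
    rw [h]
    unfold mutate hurw
    by_cases h1 : j = i.castSucc
    · simp only [h1, if_true]
      rw [← map_inv, ← map_mul, ← map_mul]
      congr 1
      apply nuSL_mutate (hE.1 _) (hE.1 _) (hE.2.1 _ _ Fin.castSucc_lt_succ)
      rw [← hFi]
      exact hF.1 _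
    · by_cases h2 : j = i.succ
      · simp only [if_neg h1, if_pos h2]
      · simp only [if_neg h1, if_neg h2]
  rw [key]
  exact inv_hurw i _ (fun j => ok_Phi (hE.1 j))

lemma area_shift {E : Fin 6 → K0} (hE : IsExceptional E) (i : Fin 6) :
    areaInv (Function.update E i (-(E i))) = areaInv E := by
  unfold areaInv
  congr 1
  funext j
  by_cases h : j = i
  · subst h
    rw [Function.update_self, nuSL_neg (hE.1 j), Phi_neg]
  · rw [Function.update_of_ne h]

lemma area_isom {E : Fin 6 → K0} (hE : IsExceptional E) {f : K0 ≃+ K0} (hf : IsIsometry f) :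
    areaInv (fun i => f (E i)) = areaInv E := by
  obtain ⟨s, t, ε, hε, hform⟩ := isom_form hf
  let a : SL(2, ℤ) := ⟨!![1, 0; s, 1], by simp [Matrix.det_fin_two]⟩
  let b : SL(2, ℤ) := ⟨!![1, t; 0, 1], by simp [Matrix.det_fin_two]⟩
  have hx : ∀ x, chi x x = 1 → Phi (nuSL (f x)) = Phi a * Phi (nuSL x) * Phi b := by
    intro x hx
    have hfx : chi (f x) (f x) = 1 := by rw [hf, hx]
    rcases hε with h | h
    · have : nuSL (f x) = a * nuSL x * b := by
        apply Subtype.ext
        show (nuSL (f x) : Matrix (Fin 2) (Fin 2) ℤ) = ((a * nuSL x * b : SL(2, ℤ)) : Matrix (Fin 2) (Fin 2) ℤ)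
        rw [nuSL_coe hfx, hform x, h, one_smul, Matrix.SpecialLinearGroup.coe_mul,
          Matrix.SpecialLinearGroup.coe_mul, nuSL_coe hx]
      rw [this, map_mul, map_mul]
    · have : nuSL (f x) = -(a * nuSL x * b) := by
        apply Subtype.ext
        show (nuSL (f x) : Matrix (Fin 2) (Fin 2) ℤ) = ((-(a * nuSL x * b) : SL(2, ℤ)) : Matrix (Fin 2) (Fin 2) ℤ)
        rw [nuSL_coe hfx, hform x, h, neg_one_smul, Matrix.SpecialLinearGroup.coe_neg,
          Matrix.SpecialLinearGroup.coe_mul, Matrix.SpecialLinearGroup.coe_mul, nuSL_coe hx]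
      rw [this, Phi_neg, map_mul, map_mul]
  have hab : (Phi a).M * (Phi b).M = 1 ∨ (Phi a).M * (Phi b).M = -1 := by
    rw [← Aff.mul_M, ← map_mul]
    apply lin_Phi_sym
    have h1 := nu_mod (f e1)
    rw [hform e1, nu_e1] at h1
    have h2 : ((a * b : SL(2, ℤ)) : Matrix (Fin 2) (Fin 2) ℤ) =
        !![1, 0; s, 1] * !![1, 0; 0, 1] * !![1, t; 0, 1] := by
      rw [Matrix.SpecialLinearGroup.coe_mul]
      show !![1, 0; s, 1] * !![1, t; 0, 1] = _
      congr 1
      ext i j; fin_cases i <;> fin_cases j <;> simp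
    rw [h2]
    rcases hε with h | h
    · rw [h, one_smul] at h1; exact h1
    · rw [h, neg_one_smul, Matrix.neg_apply, Matrix.neg_apply] at h1
      push_cast at h1
      exact neg_injective h1
  unfold areaInv
  rw [← inv_mul (Phi a) (Phi b) hab (fun i => Phi (nuSL (E i))) (fun j => ok_Phi (hE.1 j))]
  congr 1
  funext i
  exact hx _ (hE.1 i)

lemma area_step {E F : System} (h : Step E F) : areaInv E.1 = areaInv F.1 := by
  rcases h with ⟨i, h⟩ | ⟨i, h⟩ | ⟨f, hf, h⟩
  · exact (area_mutate E.2 F.2 i h).symm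
  · rw [h]; exact (area_shift E.2 i).symm
  · rw [h]; exact (area_isom E.2 hf).symm

/-- the invariant on orbits -/
noncomputable def areaOrb : Orbits → ℤ := Quot.lift (fun E => areaInv E.1) (fun _ _ h => area_step h)

lemma area_E (k : ℕ) : areaInv (E k) = 16 - 64 * (k : ℤ) ^ 2 := by
  unfold areaInv
  rw [Phi_E, inv_w]

theorem orbits_infinite : Infinite Orbits := by
  apply Infinite.of_injective (fun k : ℕ => (Quot.mk Step ⟨E k, E_exc k⟩ : Orbits))
  intro k l h
  have h2 := congrArg areaOrb h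
  have h3 : (16 : ℤ) - 64 * (k : ℤ) ^ 2 = 16 - 64 * (l : ℤ) ^ 2 := by
    rw [← area_E, ← area_E]; exact h2
  have h4 : (k : ℤ) ^ 2 = (l : ℤ) ^ 2 := by linarith
  have h5 : k ^ 2 = l ^ 2 := by exact_mod_cast h4
  exact Nat.pow_left_injective two_ne_zero h5

end Pool.Agent.BraidOrbits
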